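import Pool.Agent.Run7.h283.AP.Sv

set_option autoImplicit false

/-!
The resultant sieve with the primes up to a power of the height.
-/

namespace Pool.Agent.Run7.h283.AP

open Polynomial Finset Pool.Agent.Helper923.HMertens

lemma exists_finsetP (D : ℕ) (B : ℤ[X] → Prop) (hB : ∀ P, B P → P.natDegree = D) {X : ℝ}
    (hX : 0 ≤ X) :
    ∃ S : Finset ℤ[X], (∀ P ∈ S, B P ∧ ∀ i, |(P.coeff i : ℝ)| ≤ X) ∧
      Set.ncard {P : ℤ[X] | B P ∧ ∀ i, |(P.coeff i : ℝ)| ≤ X} = S.card ∧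
      (S.card : ℝ) ≤ (2 * X + 1) ^ (D + 1) := by
  classical
  have hfl : 0 ≤ ⌊X⌋ := Int.floor_nonneg.2 hX
  let f : ℤ[X] → (Fin (D + 1) → ℤ) := fun P i => P.coeff i
  let T : Finset (Fin (D + 1) → ℤ) := Fintype.piFinset fun _ => Icc (-⌊X⌋) ⌊X⌋
  have hmaps : Set.MapsTo f {P : ℤ[X] | B P ∧ ∀ i, |(P.coeff i : ℝ)| ≤ X} T := by
    rintro P ⟨-, h1⟩
    simp only [T, mem_coe, Fintype.mem_piFinset, mem_Icc]
    intro i
    have h3 := abs_le.1 (h1 i)
    constructor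
    · rw [neg_le, Int.le_floor]
      push_cast
      linarith
    · rw [Int.le_floor]
      exact h3.2
  have hinj : Set.InjOn f {P : ℤ[X] | B P ∧ ∀ i, |(P.coeff i : ℝ)| ≤ X} := by
    rintro P ⟨hP, -⟩ Q ⟨hQ, -⟩ h
    ext i
    rcases Nat.lt_or_ge i (D + 1) with hi | hi
    · exact congrFun h ⟨i, hi⟩
    · rw [coeff_eq_zero_of_natDegree_lt, coeff_eq_zero_of_natDegree_lt]
      · rw [hB Q hQ]; omega
      · rw [hB P hP]; omega
  have hfin : {P : ℤ[X] | B P ∧ ∀ i, |(P.coeff i : ℝ)| ≤ X}.Finite :=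
    Set.Finite.of_injOn hmaps hinj (Finset.finite_toSet T)
  refine ⟨hfin.toFinset, ?_, ?_, ?_⟩
  · intro P hP
    exact (Set.Finite.mem_toFinset hfin).1 hP
  · rw [← Set.ncard_coe_finset]
    simp
  · have h1 : hfin.toFinset.card ≤ T.card := by
      refine card_le_card_of_injOn f ?_ ?_
      · intro P hP
        rw [mem_coe, Set.Finite.mem_toFinset] at hP
        exact hmaps hP
      · intro P hP Q hQ h
        rw [mem_coe, Set.Finite.mem_toFinset] at hP hQ
        exact hinj hP hQ h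
    have h2 : T.card = ((2 * ⌊X⌋ + 1).toNat) ^ (D + 1) := by
      simp only [T, Fintype.card_piFinset, Int.card_Icc, prod_const, card_univ, Fintype.card_fin]
      congr 2
      ring
    have h3 : (((2 * ⌊X⌋ + 1).toNat : ℕ) : ℝ) ≤ 2 * X + 1 := by
      have h3 : (((2 * ⌊X⌋ + 1).toNat : ℕ) : ℤ) = 2 * ⌊X⌋ + 1 := Int.toNat_of_nonneg (by linarith)
      have h4 : (((2 * ⌊X⌋ + 1).toNat : ℕ) : ℝ) = 2 * ⌊X⌋ + 1 := by exact_mod_cast h3
      rw [h4]
      have := Int.floor_le X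
      linarith
    calc (hfin.toFinset.card : ℝ) ≤ T.card := by exact_mod_cast h1
      _ = (((2 * ⌊X⌋ + 1).toNat : ℕ) : ℝ) ^ (D + 1) := by rw [h2]; push_cast; rfl
      _ ≤ (2 * X + 1) ^ (D + 1) := pow_le_pow_left₀ (Nat.cast_nonneg _) h3 _

lemma quad_pos {a : ℝ} (ha : 0 < a) (b c : ℝ) :
    ∃ L₀ : ℝ, ∀ L : ℝ, L₀ ≤ L → 0 ≤ a * L ^ 2 + b * L + c := by
  refine ⟨max 1 ((|b| + |c|) / a), fun L hL => ?_⟩
  have h1 : 1 ≤ L := (le_max_left _ _).trans hL
  have h2 : |b| + |c| ≤ a * L := by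
    have := (le_max_right _ _).trans hL
    rw [div_le_iff₀ ha] at this
    linarith
  have h3 : (|b| + |c|) * L ≤ a * L * L := mul_le_mul_of_nonneg_right h2 (by linarith)
  have h4 : -|b| * L ≤ b * L := mul_le_mul_of_nonneg_right (neg_abs_le b) (by linarith)
  have h5 : -|c| ≤ c := neg_abs_le c
  have h6 : |c| * 1 ≤ |c| * L := mul_le_mul_of_nonneg_left h1 (abs_nonneg c)
  nlinarith

/-- The primes that divide a number have a small logarithmic weight. -/
lemma sum_dvd_le {N : ℕ} {z : ℤ} (hz : z ≠ 0) {y : ℕ} (hy : 1 ≤ y) {R : ℝ}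
    (hR : Real.log |(z : ℝ)| ≤ R) :
    ∑ p ∈ (PP N).filter (fun p : ℕ => (p : ℤ) ∣ z), Real.log p / p ≤
      ∑ p ∈ PP y, Real.log p / p + R / y := by
  classical
  have hy0 : (0 : ℝ) < y := by exact_mod_cast hy
  have hnn : ∀ p : ℕ, 0 ≤ Real.log p / p := fun p =>
    div_nonneg (Real.log_natCast_nonneg p) (Nat.cast_nonneg p)
  have h1 : ∑ p ∈ (PP N).filter (fun p : ℕ => (p : ℤ) ∣ z), Real.log p / p ≤
      ∑ p ∈ PP y, Real.log p / p +
        ∑ p ∈ (PP N).filter (fun p : ℕ => (p : ℤ) ∣ z), Real.log p / y := by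
    rw [← sum_filter_add_sum_filter_not ((PP N).filter fun p : ℕ => (p : ℤ) ∣ z)
      (fun p => p ≤ y)]
    refine add_le_add ?_ ?_
    · refine sum_le_sum_of_subset_of_nonneg ?_ fun p _ _ => hnn p
      intro p hp
      rw [mem_filter, mem_filter, mem_filter, mem_Icc] at hp
      rw [mem_filter, mem_Icc]
      exact ⟨⟨hp.1.1.1.1, hp.2⟩, hp.1.1.2⟩
    · refine le_trans (sum_le_sum (f := fun p : ℕ => Real.log p / p)
        (g := fun p : ℕ => Real.log p / y) ?_) ?_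
      · intro p hp
        rw [mem_filter] at hp
        have h3 : (y : ℝ) ≤ p := by
          have := hp.2
          exact_mod_cast (by omega : y ≤ p)
        exact div_le_div_of_nonneg_left (Real.log_natCast_nonneg p) hy0 h3
      · refine sum_le_sum_of_subset_of_nonneg (filter_subset _ _) fun p _ _ => ?_
        exact div_nonneg (Real.log_natCast_nonneg p) hy0.le
  refine h1.trans (add_le_add le_rfl ?_)
  rw [← sum_div]
  refine div_le_div_of_nonneg_right ?_ hy0.le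
  refine le_trans ?_ hR
  have h4 := sum_log_pow_dvd (PP := (PP N).filter fun p : ℕ => (p : ℤ) ∣ z)
    (fun p hp => (mem_filter.1 (mem_filter.1 hp).1).2) (fun _ => 1) (m := z.natAbs)
    (Int.natAbs_ne_zero.2 hz) (by
      intro p hp
      rw [pow_one]
      exact Int.natCast_dvd.1 (mem_filter.1 hp).2)
  simp only [Nat.cast_one, mul_one] at h4
  rwa [Nat.cast_natAbs, Int.cast_abs] at h4

open Classical in
theorem sparseP {n d D P₁ : ℕ} (hn : 1 ≤ n) (hD : 1 ≤ D) {lam θ K : ℝ} (hlam : 0 < lam)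
    (hθ : 2 * (d : ℝ) < n * D * lam ^ 2 * θ) :
    ∃ C : ℝ, ∀ A : ℕ → ℤ[X] → Prop, ClsP A n d P₁ → ∀ X : ℝ, 2 ≤ X →
      (Set.ncard {P : ℤ[X] | (Adm D P ∧ ∑ p ∈ Icc 1 ⌊X ^ θ⌋₊ with p.Prime ∧ ¬ A p P,
        Real.log p / p ≤ (1 - lam) * θ * Real.log X + K) ∧ ∀ i, |(P.coeff i : ℝ)| ≤ X} : ℝ) ≤
        C * X ^ θ := by
  obtain ⟨C₀, hC₀⟩ := mertens_log
  have hC₀0 : 0 ≤ C₀ := (abs_nonneg _).trans (hC₀ 1 le_rfl)
  have hn0 : (0 : ℝ) < n := by exact_mod_cast hn
  have hD0 : (0 : ℝ) < D := by exact_mod_cast hD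
  have hd0 : (0 : ℝ) ≤ d := Nat.cast_nonneg d
  have hθ0 : 0 < θ := by
    by_contra h
    push Not at h
    have : n * D * lam ^ 2 * θ ≤ 0 := mul_nonpos_of_nonneg_of_nonpos (by positivity) h
    linarith
  have hnn : ∀ p : ℕ, 0 ≤ Real.log p / p := fun p =>
    div_nonneg (Real.log_natCast_nonneg p) (Nat.cast_nonneg p)
  set m := D + (D - 1) with hm
  -- choice of δ
  set g := n * D ^ 2 * (lam * θ) ^ 2 - 2 * d * D * θ with hg
  have hg0 : 0 < g := by
    have h1 : 2 * (d : ℝ) * (D * θ) < n * D * lam ^ 2 * θ * (D * θ) :=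
      mul_lt_mul_of_pos_right hθ (by positivity)
    rw [hg]; nlinarith
  have hlt : 0 < lam * θ := by positivity
  set δ := min (lam * θ / 2) (g / (4 * (n * D ^ 2 * (lam * θ)))) with hδ
  have hδ0 : 0 < δ := lt_min (by positivity) (by positivity)
  obtain ⟨y, hy⟩ := exists_nat_ge (((m : ℝ) + 1) / δ)
  have hy0 : (0 : ℝ) < y := lt_of_lt_of_le (by positivity) hy
  have hy1 : 1 ≤ y := by exact_mod_cast hy0
  set a1 := lam * θ - ((m : ℝ) + 1) / y with ha1
  have hmy : ((m : ℝ) + 1) / y ≤ δ := by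
    rw [div_le_iff₀ hδ0] at hy
    rw [div_le_iff₀ hy0]
    linarith
  have ha1δ : lam * θ - δ ≤ a1 := by rw [ha1]; linarith
  have hδ1 : δ ≤ lam * θ / 2 := min_le_left _ _
  have hδ2 : δ * (4 * (n * D ^ 2 * (lam * θ))) ≤ g := by
    have := min_le_right (lam * θ / 2) (g / (4 * (n * D ^ 2 * (lam * θ))))
    rw [← hδ, le_div_iff₀ (by positivity)] at this
    exact this
  have ha10 : 0 < a1 := by linarith
  have hlead : 0 < n * D ^ 2 * a1 ^ 2 - 2 * d * D * θ := by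
    have h1 : (lam * θ - δ) ^ 2 ≤ a1 ^ 2 := pow_le_pow_left₀ (by linarith) ha1δ 2
    have h2 : n * D ^ 2 * (lam * θ - δ) ^ 2 ≤ n * D ^ 2 * a1 ^ 2 :=
      mul_le_mul_of_nonneg_left h1 (by positivity)
    have h3 : n * D ^ 2 * (lam * θ - δ) ^ 2 =
        n * D ^ 2 * (lam * θ) ^ 2 - δ * (4 * (n * D ^ 2 * (lam * θ))) / 2 + n * D ^ 2 * δ ^ 2 := by
      ring
    have h4 : 0 < n * (D : ℝ) ^ 2 * δ ^ 2 := by positivity
    rw [h3] at h2
    rw [hg] at hδ2 hg0
    linarith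
  -- the constants
  set B₁ := ∑ p ∈ PP P₁, Real.log p / p with hB₁
  set By := ∑ p ∈ PP y, Real.log p / p with hBy
  set cR := Real.log (m.factorial : ℝ) + m * Real.log D with hcR
  set cV := Real.log 2 + C₀ + K + B₁ + By + cR / y with hcV
  set cB := Real.log ((D + D).factorial : ℝ) with hcB
  have hcB0 : 0 ≤ cB := Real.log_natCast_nonneg _
  obtain ⟨L₁, hL₁⟩ := quad_pos hlead
    (-2 * n * D ^ 2 * a1 * cV - θ * (d * cB + 1) - 2 * d * D * C₀)
    (n * D ^ 2 * cV ^ 2 - C₀ * (d * cB + 1))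
  set L₀ := max (max L₁ (cV / a1)) 1 with hL₀
  refine ⟨max (2 * d * D) ((2 * Real.exp L₀ + 1) ^ (D + 1)), fun A hA X hX => ?_⟩
  have hX0 : 0 < X := by linarith
  have hX1 : 1 ≤ X := by linarith
  have hXθ : 1 ≤ X ^ θ := Real.one_le_rpow hX1 hθ0.le
  obtain ⟨S, hS1, hS2, hS3⟩ := exists_finsetP D (fun P => Adm D P ∧
    ∑ p ∈ Icc 1 ⌊X ^ θ⌋₊ with p.Prime ∧ ¬ A p P,
        Real.log p / p ≤ (1 - lam) * θ * Real.log X + K) (fun P hP => hP.1.1) hX0.le
  rw [hS2]
  set L := Real.log X with hL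
  rcases lt_or_ge L L₀ with hlt' | hge
  · have h1 : X < Real.exp L₀ := (Real.log_lt_iff_lt_exp hX0).1 hlt'
    calc (S.card : ℝ) ≤ (2 * X + 1) ^ (D + 1) := hS3
      _ ≤ (2 * Real.exp L₀ + 1) ^ (D + 1) := pow_le_pow_left₀ (by linarith) (by linarith) _
      _ ≤ max (2 * (d : ℝ) * D) ((2 * Real.exp L₀ + 1) ^ (D + 1)) := le_max_right _ _
      _ = max (2 * (d : ℝ) * D) ((2 * Real.exp L₀ + 1) ^ (D + 1)) * 1 := (mul_one _).symm
      _ ≤ max (2 * (d : ℝ) * D) ((2 * Real.exp L₀ + 1) ^ (D + 1)) * X ^ θ := by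
          refine mul_le_mul_of_nonneg_left hXθ ?_
          exact le_trans (by positivity) (le_max_right _ _)
  have hLL₁ : L₁ ≤ L := ((le_max_left _ _).trans (le_max_left _ _)).trans hge
  have hLV : cV ≤ a1 * L := by
    have := ((le_max_right L₁ (cV / a1)).trans (le_max_left _ _)).trans hge
    rw [div_le_iff₀ ha10] at this
    linarith
  have hL1 : 1 ≤ L := (le_max_right _ _).trans hge
  set N := ⌊X ^ θ⌋₊ with hN
  have hN1 : 1 ≤ N := Nat.le_floor (by exact_mod_cast hXθ)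
  set P := (PP N).filter (fun p => P₁ < p) with hP
  have hPp : ∀ p ∈ P, p.Prime ∧ P₁ < p := by
    intro p hp
    rw [hP, mem_filter, mem_filter] at hp
    exact ⟨hp.1.2, hp.2⟩
  set W := θ * L + C₀ with hW
  have hWpos : 0 < W := by
    have : 0 < θ * L := by positivity
    linarith
  have hlogN : Real.log N ≤ θ * L := by
    rw [hL, ← Real.log_rpow hX0]
    exact Real.log_le_log (by exact_mod_cast hN1) (Nat.floor_le (by positivity))
  have hlogN2 : θ * L - Real.log 2 ≤ Real.log N := by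
    rw [hL, ← Real.log_rpow hX0, ← Real.log_div (by positivity) (by norm_num)]
    refine Real.log_le_log (by positivity) ?_
    have h3 := Nat.lt_floor_add_one (X ^ θ)
    have h4 : (1 : ℝ) ≤ N := by exact_mod_cast hN1
    rw [← hN] at h3
    linarith
  have hWle : ∑ p ∈ P, Real.log p / p ≤ W := by
    have h1 : ∑ p ∈ P, Real.log p / p ≤ ∑ p ∈ PP N, Real.log p / p :=
      sum_le_sum_of_subset_of_nonneg (filter_subset _ _) fun p _ _ => hnn p
    have h2 := (abs_le.1 (hC₀ N hN1)).2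
    rw [hW]; linarith
  set V := a1 * L - cV with hV
  have hV0 : 0 ≤ V := by rw [hV]; linarith
  have hlogRR : ∀ Q ∈ S, Real.log |((RR D Q : ℤ) : ℝ)| ≤ ((m : ℝ) + 1) * L + cR := by
    intro Q hQ
    obtain ⟨⟨hQ1, -⟩, hQ2⟩ := hS1 Q hQ
    have h1 := abs_RR_le hD hQ1.1.le hQ2
    have h2 : 0 < |((RR D Q : ℤ) : ℝ)| := by
      rw [abs_pos]
      exact_mod_cast hQ1.RR_ne hD
    refine (Real.log_le_log h2 h1).trans (le_of_eq ?_)
    have hf : ((m.factorial : ℕ) : ℝ) ≠ 0 := by exact_mod_cast (Nat.factorial_pos m).ne'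
    rw [← hm, Real.log_mul hX0.ne' (by positivity), Real.log_mul hf (by positivity), Real.log_pow,
      Real.log_mul hD0.ne' hX0.ne', hcR, hL]
    ring
  have hSV : ∀ Q ∈ S, V ≤ ∑ p ∈ P with A p Q ∧ ¬ (p : ℤ) ∣ RR D Q, Real.log p / p := by
    intro Q hQ
    obtain ⟨⟨hQ1, hQ3⟩, hQ2⟩ := hS1 Q hQ
    have h1 : PP N ⊆ (P.filter fun p => A p Q ∧ ¬ (p : ℤ) ∣ RR D Q) ∪
        (((Icc 1 N).filter fun p => p.Prime ∧ ¬ A p Q) ∪
          (PP P₁ ∪ (PP N).filter fun p => (p : ℤ) ∣ RR D Q)) := by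
      intro p hp
      have hp' := hp
      rw [mem_filter, mem_Icc] at hp
      rw [mem_union, mem_union, mem_union]
      by_cases h2 : P₁ < p
      · by_cases h3 : A p Q
        · by_cases h4 : (p : ℤ) ∣ RR D Q
          · right; right; right
            rw [mem_filter]
            exact ⟨hp', h4⟩
          · left
            rw [mem_filter, hP, mem_filter]
            exact ⟨⟨hp', h2⟩, h3, h4⟩
        · right; left
          rw [mem_filter, mem_Icc]
          exact ⟨hp.1, hp.2, h3⟩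
      · right; right; left
        rw [mem_filter, mem_Icc]
        exact ⟨⟨hp.1.1, by omega⟩, hp.2⟩
    have h2 : ∑ p ∈ PP N, Real.log p / p ≤
        ∑ p ∈ P with A p Q ∧ ¬ (p : ℤ) ∣ RR D Q, Real.log p / p +
          (∑ p ∈ Icc 1 N with p.Prime ∧ ¬ A p Q, Real.log p / p +
            (B₁ + ∑ p ∈ (PP N).filter (fun p : ℕ => (p : ℤ) ∣ RR D Q), Real.log p / p)) := by
      refine (sum_le_sum_of_subset_of_nonneg h1 fun p _ _ => hnn p).trans ?_
      have hun : ∀ T U : Finset ℕ, ∑ p ∈ T ∪ U, Real.log p / p ≤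
          ∑ p ∈ T, Real.log p / p + ∑ p ∈ U, Real.log p / p := by
        intro T U
        have e1 := sum_union_inter (s₁ := T) (s₂ := U) (f := fun p : ℕ => Real.log p / p)
        have e2 : 0 ≤ ∑ p ∈ T ∩ U, Real.log p / (p : ℝ) := sum_nonneg fun p _ => hnn p
        linarith
      refine (hun _ _).trans (add_le_add le_rfl ((hun _ _).trans (add_le_add le_rfl ?_)))
      exact hun _ _
    have h3 := (abs_le.1 (hC₀ N hN1)).1
    have h4 := sum_dvd_le (N := N) (hQ1.RR_ne hD) hy1 (hlogRR Q hQ)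
    have h5 : (((m : ℝ) + 1) * L + cR) / y = ((m : ℝ) + 1) / y * L + cR / y := by ring
    rw [h5] at h4
    have h6 : V = lam * θ * L - ((m : ℝ) + 1) / y * L -
        (Real.log 2 + C₀ + K + B₁ + By + cR / y) := by
      rw [hV, ha1, hcV]; ring
    rw [h6]
    have h7 : (1 - lam) * θ * L = θ * L - lam * θ * L := by ring
    rw [h7] at hQ3
    linarith
  have hlogB : Real.log (((D + D).factorial : ℝ) * X ^ (D + D)) ≤ cB + 2 * D * L := by
    have hf : (((D + D).factorial : ℕ) : ℝ) ≠ 0 := by exact_mod_cast (Nat.factorial_pos _).ne'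
    rw [Real.log_mul hf (by positivity), Real.log_pow, hcB, hL]
    push_cast
    linarith
  have hmain := weightedP hA hPp hD hX1 (fun Q hQ => ⟨(hS1 Q hQ).1.1, (hS1 Q hQ).2⟩) hlogB hV0
    hWle hSV
  have hth : ∑ p ∈ P, Real.log p ≤ 2 * X ^ θ := by
    have h1 : ∑ p ∈ P, Real.log p ≤ ∑ p ∈ PP N, Real.log p := by
      refine sum_le_sum_of_subset_of_nonneg (filter_subset _ _) fun p _ _ => ?_
      exact Real.log_natCast_nonneg p
    have h2 := theta_le N
    have h3 : (N : ℝ) ≤ X ^ θ := Nat.floor_le (by positivity)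
    linarith
  have hkey : W ≤ n * D ^ 2 * V ^ 2 - W * d * (cB + 2 * D * L) := by
    have h1 := hL₁ L hLL₁
    have h2 : n * D ^ 2 * V ^ 2 - W * d * (cB + 2 * D * L) - W =
        (n * D ^ 2 * a1 ^ 2 - 2 * d * D * θ) * L ^ 2 +
          (-2 * n * D ^ 2 * a1 * cV - θ * (d * cB + 1) - 2 * d * D * C₀) * L +
          (n * D ^ 2 * cV ^ 2 - C₀ * (d * cB + 1)) := by
      rw [hV, hW]; ring
    linarith
  have h9 : (S.card : ℝ) * W ≤ (2 * d * D * X ^ θ) * W := by
    calc (S.card : ℝ) * W ≤ S.card * (n * D ^ 2 * V ^ 2 - W * d * (cB + 2 * D * L)) :=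
          mul_le_mul_of_nonneg_left hkey (Nat.cast_nonneg _)
      _ ≤ W * d * (D * ∑ p ∈ P, Real.log p) := hmain
      _ ≤ W * d * (D * (2 * X ^ θ)) :=
          mul_le_mul_of_nonneg_left (mul_le_mul_of_nonneg_left hth hD0.le) (by positivity)
      _ = (2 * d * D * X ^ θ) * W := by ring
  have h10 := le_of_mul_le_mul_right h9 hWpos
  exact h10.trans (mul_le_mul_of_nonneg_right (le_max_left _ _) (by positivity))

end Pool.Agent.Run7.h283.AP
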