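import Pool.Agent.Run7.h283.AP.Dim

set_option autoImplicit false

/-!
Eigenvalue count over an arbitrary field of characteristic `p`: in a polynomial family of
differential operators over `k(x)` whose highest coefficient in the parameter is a multiplication,
at most `d p / n` values of the parameter in `k` give `n` independent solutions.
(Generalisation of `Pool.Agent.TH924.PC.Eig`, where `k = F_p`.)
-/

namespace Pool.Agent.Run7.h283.AP

open Polynomial

variable {p : ℕ} [hp : Fact p.Prime] {k : Type*} [Field k] [CharP k p]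

/-- The companion map of `∑ q^k M_k + q^d / s`. -/
noncomputable def cmp (D : Derivation k (RatFunc k) (RatFunc k)) {d : ℕ}
    (M : Fin d → Module.End (KK D) (RatFunc k)) (s : RatFunc k) :
    Module.End (KK D) (Fin d → RatFunc k) :=
  LinearMap.pi fun j => if h : (j : ℕ) + 1 < d then LinearMap.proj ⟨j + 1, h⟩ else
    -((LinearMap.mulLeft (KK D) s) ∘ₗ (∑ i, M i ∘ₗ LinearMap.proj i))

omit hp [CharP k p] in
lemma cmp_apply (D : Derivation k (RatFunc k) (RatFunc k)) {d : ℕ}
    (M : Fin d → Module.End (KK D) (RatFunc k)) (s : RatFunc k)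
    (v : Fin d → RatFunc k) (j : Fin d) :
    cmp D M s v j = if h : (j : ℕ) + 1 < d then v ⟨j + 1, h⟩ else -(s * ∑ i, M i (v i)) := by
  unfold cmp
  rw [LinearMap.pi_apply]
  split_ifs with h
  · rfl
  · simp [Finset.mul_sum]

include hp in
variable (p) in
theorem count_le (D : Derivation k (RatFunc k) (RatFunc k)) {d n : ℕ} (hd : 1 ≤ d)
    (M : Fin d → Module.End (KK D) (RatFunc k)) (r : RatFunc k) (hr : r ≠ 0)
    {ι : Type*} (S : Finset ι) (κ : ι → KK D) (hκ : Set.InjOn κ S) (y : ι → Fin n → RatFunc k)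
    (hsol : ∀ q ∈ S, ∀ j, ∑ i : Fin d, (κ q : RatFunc k) ^ (i : ℕ) * M i (y q j) +
      (κ q : RatFunc k) ^ d * r * y q j = 0)
    (hind : ∀ q ∈ S, LinearIndependent (KK D) (y q)) : S.card * n ≤ d * p := by
  classical
  have hfin := finite_K p D
  have hfr := finrank_K p D
  let Φ := cmp D M r⁻¹
  let v : (q : S) → Fin n → (Fin d → RatFunc k) :=
    fun q j i => ((κ q : KK D) : RatFunc k) ^ (i : ℕ) * y q j
  have hmem : ∀ (q : S) (j : Fin n), v q j ∈ Φ.eigenspace (κ q) := by
    intro q j
    rw [Module.End.mem_eigenspace_iff]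
    funext i
    show cmp D M r⁻¹ (v q j) i = ((κ q : KK D) : RatFunc k) * v q j i
    rw [cmp_apply]
    split_ifs with h
    · simp only [v]
      rw [pow_succ]; ring
    · have hk : (i : ℕ) + 1 = d := by
        have := i.2
        omega
      have h1 : ∑ i : Fin d, M i (v q j i) =
          ∑ i : Fin d, ((κ q : KK D) : RatFunc k) ^ (i : ℕ) * M i (y q j) := by
        refine Finset.sum_congr rfl fun i _ => ?_
        have : v q j i = ((κ q : KK D) ^ (i : ℕ)) • y q j := by
          show _ = (((κ q : KK D) ^ (i : ℕ) : KK D) : RatFunc k) * y q j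
          simp [v]
        rw [this, map_smul]
        show (((κ q : KK D) ^ (i : ℕ) : KK D) : RatFunc k) * _ = _
        simp
      have h2 := hsol q q.2 j
      rw [h1]
      simp only [v]
      rw [← mul_assoc, ← pow_succ', hk]
      have h3 : ∑ i : Fin d, ((κ q : KK D) : RatFunc k) ^ (i : ℕ) * M i (y q j) =
          -(((κ q : KK D) : RatFunc k) ^ d * r * y q j) := by
        linear_combination h2
      rw [h3]
      field_simp
  have hli : ∀ q : S, LinearIndependent (KK D) (v q) := by
    intro q
    have h0 : 0 < d := hd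
    refine LinearIndependent.of_comp (LinearMap.proj (⟨0, h0⟩ : Fin d)) ?_
    have : (⇑(LinearMap.proj (R := KK D) (φ := fun _ : Fin d => RatFunc k) (⟨0, h0⟩ : Fin d)) ∘ v q) =
        y q := by
      funext j
      simp [v]
    rw [this]
    exact hind q q.2
  have hspan : ∀ q : S, Submodule.span (KK D) (Set.range (v q)) ≤ Φ.eigenspace (κ q) := by
    intro q
    rw [Submodule.span_le]
    rintro _ ⟨j, rfl⟩
    exact hmem q j
  have hinj : Function.Injective (fun q : S => κ q) := by
    intro a b hab
    exact Subtype.ext (hκ a.2 b.2 hab)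
  have hind2 : iSupIndep (fun q : S => Φ.eigenspace (κ q)) :=
    (Module.End.eigenspaces_iSupIndep Φ).comp hinj
  have hLI : LinearIndependent (KK D) (fun ji : Σ _ : S, Fin n => v ji.1 ji.2) := by
    refine linearIndependent_iUnion_finite hli fun q t _ hq => ?_
    refine (hind2.disjoint_biSup (x := q) (y := t) hq).mono (hspan q) ?_
    exact iSup₂_mono fun i _ => hspan i
  have hcard := hLI.fintype_card_le_finrank
  rw [Fintype.card_sigma, Finset.sum_const, Finset.card_univ, Fintype.card_fin,
    Fintype.card_coe, smul_eq_mul, Module.finrank_pi_fintype, Finset.sum_const, Finset.card_univ,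
    Fintype.card_fin, smul_eq_mul] at hcard
  exact hcard.trans (Nat.mul_le_mul_left d hfr)

omit hp [CharP k p] in
variable (k) in
lemma aeval_eq (r : ℤ[X]) : Polynomial.aeval (RatFunc.X : RatFunc k) r =
    algebraMap k[X] (RatFunc k) (r.map (Int.castRingHom k)) := by
  induction r using Polynomial.induction_on' with
  | add P Q hP hQ => simp [hP, hQ]
  | monomial m a => simp [← C_mul_X_pow_eq_monomial]

omit hp [CharP k p] in
lemma aeval_ne {r : ℤ[X]} (hr : r.map (Int.castRingHom k) ≠ 0) :
    Polynomial.aeval (RatFunc.X : RatFunc k) r ≠ 0 := by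
  rw [aeval_eq]
  exact RatFunc.algebraMap_ne_zero hr

/-- The operator `L_t = ∑_{m < d} t^m L_m + t^d r` over the field `k(x)`, for `t` in the field `k`,
where `L_m = ∑ b m i ∂^i` (`i ≤ n`) and `r` have coefficients in `ℤ[x]`, has a full basis of
rational solutions: `n` solutions in `k(x)` that are linearly independent over the constants of
`d/dx`. -/
def FullAt {k : Type*} [Field k] (n : ℕ) {d : ℕ} (b : Fin d → Fin (n + 1) → ℤ[X]) (r : ℤ[X])
    (t : k) : Prop :=
  ∃ D : Derivation k (RatFunc k) (RatFunc k), D (RatFunc.X : RatFunc k) = 1 ∧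
    ∃ y : Fin n → RatFunc k,
      (∀ j : Fin n, ∑ i : Fin (n + 1),
          (∑ m : Fin d, RatFunc.C (t ^ (m : ℕ)) * Polynomial.aeval (RatFunc.X : RatFunc k) (b m i) +
            if i = 0 then RatFunc.C (t ^ d) * Polynomial.aeval (RatFunc.X : RatFunc k) r else 0) *
          (⇑D)^[(i : ℕ)] (y j) = 0) ∧
      ∀ c : Fin n → RatFunc k, (∀ j, D (c j) = 0) → ∑ j : Fin n, c j * y j = 0 → ∀ j, c j = 0

include hp in
variable (p) in
theorem classes_le {n d : ℕ} (hd : 1 ≤ d) (b : Fin d → Fin (n + 1) → ℤ[X]) (r : ℤ[X])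
    (hr : r.map (Int.castRingHom k) ≠ 0) (T : Finset k)
    (hT : ∀ t ∈ T, FullAt n b r t) : T.card * n ≤ d * p := by
  classical
  rcases T.eq_empty_or_nonempty with h | ⟨t₀, ht₀⟩
  · simp [h]
  obtain ⟨D, hD, -⟩ := hT t₀ ht₀
  have h : ∀ t ∈ T, ∃ y : Fin n → RatFunc k, LinearIndependent (KK D) y ∧
      ∀ j, ∑ m : Fin d, (RatFunc.C t : RatFunc k) ^ (m : ℕ) *
        opL D (fun i => Polynomial.aeval (RatFunc.X : RatFunc k) (b m i)) (y j) +
      (RatFunc.C t : RatFunc k) ^ d * Polynomial.aeval (RatFunc.X : RatFunc k) r * y j = 0 := by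
    intro t ht
    obtain ⟨D', hD', y, hy, hind⟩ := hT t ht
    obtain rfl : D' = D := D_unique hD' hD
    refine ⟨y, ?_, ?_⟩
    · rw [Fintype.linearIndependent_iff]
      intro g hg j
      have := hind (fun j => (g j : RatFunc k)) (fun j => (g j).2) hg j
      exact Subtype.ext this
    · intro j
      rw [← hy j]
      simp only [opL_apply, map_pow, add_mul, Finset.sum_mul, Finset.mul_sum]
      rw [Finset.sum_add_distrib, Finset.sum_comm]
      congr 1
      · refine Finset.sum_congr rfl fun m _ => Finset.sum_congr rfl fun i _ => ?_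
        ring
      · rw [Finset.sum_eq_single (0 : Fin (n + 1))]
        · simp
        · intro i _ hi
          simp [hi]
        · simp
  choose! y hy1 hy2 using h
  refine count_le p D hd
    (fun m => opL D (fun i => Polynomial.aeval (RatFunc.X : RatFunc k) (b m i)))
    (Polynomial.aeval (RatFunc.X : RatFunc k) r) (aeval_ne hr) T
    (fun t => ⟨RatFunc.C t, const_C D t⟩) ?_ y (fun t ht => hy2 t ht) (fun t ht => hy1 t ht)
  intro s _ t _ hst
  have h1 : (RatFunc.C s : RatFunc k) = RatFunc.C t := congrArg Subtype.val hst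
  exact RatFunc.C_injective h1

end Pool.Agent.Run7.h283.AP
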