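import Mathlib

set_option autoImplicit false

/-!
The resultant of two integer polynomials with `m` common roots modulo `p` (in an algebraic closure
of `F_p`) is divisible by `p ^ m`.
-/

namespace Pool.Agent.Run7.h283.AP

open Polynomial Matrix

/-- If `m` linearly independent vectors are in the left kernel of `M` modulo `p`, then `p ^ m`
divides the determinant of `M`. -/
theorem pow_dvd_det {ι : Type*} [Fintype ι] [DecidableEq ι] {p m : ℕ} [hp : Fact p.Prime]
    (M : Matrix ι ι ℤ) (v : Fin m → ι → ZMod p) (hv : LinearIndependent (ZMod p) v)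
    (h : ∀ i, v i ᵥ* M.map (Int.castRingHom (ZMod p)) = 0) : (p : ℤ) ^ m ∣ M.det := by
  classical
  let b := Module.Basis.sumExtend hv
  have hb : ∀ i, b (Sum.inl i) = v i := by
    intro i
    simp only [b, Module.Basis.sumExtend]
    simp
    rfl
  have hfi : Finite (Fin m ⊕ Module.Basis.sumExtendIndex hv) := Module.Finite.finite_basis b
  have : Fintype (Fin m ⊕ Module.Basis.sumExtendIndex hv) := Fintype.ofFinite _
  have hcard : Fintype.card ι = Fintype.card (Fin m ⊕ Module.Basis.sumExtendIndex hv) := by
    rw [← Module.finrank_eq_card_basis b, Module.finrank_fintype_fun_eq_card]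
  let σ : ι ≃ Fin m ⊕ Module.Basis.sumExtendIndex hv := Fintype.equivOfCardEq hcard
  let Ub : Matrix ι ι (ZMod p) := Matrix.of fun i j => b (σ i) j
  have hUb : IsUnit Ub := by
    rw [← linearIndependent_rows_iff_isUnit]
    have : Ub.row = b ∘ σ := rfl
    rw [this]
    exact b.linearIndependent.comp σ σ.injective
  let U : Matrix ι ι ℤ := Matrix.of fun i j => ((Ub i j).val : ℤ)
  have hU : U.map (Int.castRingHom (ZMod p)) = Ub := by
    ext i j
    rw [Matrix.map_apply]
    show (Int.castRingHom (ZMod p)) ((Ub i j).val : ℤ) = Ub i j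
    simp
  have hdet : ((U.det : ℤ) : ZMod p) ≠ 0 := by
    have h1 : ((U.det : ℤ) : ZMod p) = Ub.det := by
      rw [← hU]
      exact (Int.castRingHom (ZMod p)).map_det U
    rw [h1]
    exact ((Matrix.isUnit_iff_isUnit_det _).1 hUb).ne_zero
  -- the rows of `U * M` with `σ i = inl _` are divisible by `p`
  have hrow : ∀ i j, (∃ a, σ i = Sum.inl a) → (p : ℤ) ∣ (U * M) i j := by
    rintro i j ⟨a, ha⟩
    rw [← ZMod.intCast_zmod_eq_zero_iff_dvd]
    have h1 : (((U * M) i j : ℤ) : ZMod p) = ((U * M).map (Int.castRingHom (ZMod p))) i j := rfl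
    rw [h1, Matrix.map_mul, hU]
    have h2 : (Ub * M.map (Int.castRingHom (ZMod p))) i j =
        (v a ᵥ* M.map (Int.castRingHom (ZMod p))) j := by
      rw [Matrix.mul_apply]
      show ∑ l, b (σ i) l * _ = ∑ l, v a l * _
      rw [ha, hb]
    rw [h2, h a]
    rfl
  have hfac : ∀ i j, ∃ c : ℤ, (U * M) i j = (if ∃ a, σ i = Sum.inl a then (p : ℤ) else 1) * c := by
    intro i j
    split_ifs with hi
    · exact hrow i j hi
    · exact ⟨_, (one_mul _).symm⟩
  choose N hN using hfac
  have hprod : U * M = Matrix.diagonal (fun i => if ∃ a, σ i = Sum.inl a then (p : ℤ) else 1) *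
      Matrix.of N := by
    ext i j
    rw [Matrix.diagonal_mul, Matrix.of_apply]
    exact hN i j
  have hcount : ∏ i, (if ∃ a, σ i = Sum.inl a then (p : ℤ) else 1) = (p : ℤ) ^ m := by
    rw [Finset.prod_ite, Finset.prod_const, Finset.prod_const_one, mul_one]
    congr 1
    have hinj : Function.Injective fun a : Fin m => σ.symm (Sum.inl a) :=
      σ.symm.injective.comp Sum.inl_injective
    have : (Finset.univ.filter fun i => ∃ a, σ i = Sum.inl a) =
        Finset.univ.image (fun a : Fin m => σ.symm (Sum.inl a)) := by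
      ext i
      simp only [Finset.mem_filter, Finset.mem_univ, true_and, Finset.mem_image]
      constructor
      · rintro ⟨a, ha⟩
        exact ⟨a, by rw [← ha, Equiv.symm_apply_apply]⟩
      · rintro ⟨a, ha⟩
        exact ⟨a, by rw [← ha, Equiv.apply_symm_apply]⟩
    rw [this, Finset.card_image_of_injective _ hinj, Finset.card_univ, Fintype.card_fin]
  have h3 : U.det * M.det = (p : ℤ) ^ m * Matrix.det (Matrix.of N) := by
    rw [← Matrix.det_mul, hprod, Matrix.det_mul, Matrix.det_diagonal, hcount]
  have hcop : IsCoprime ((p : ℤ) ^ m) U.det := by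
    refine IsCoprime.pow_left ?_
    rw [Prime.coprime_iff_not_dvd (Nat.prime_iff_prime_int.1 hp.out),
      ← ZMod.intCast_zmod_eq_zero_iff_dvd]
    exact hdet
  exact hcop.dvd_of_dvd_mul_left (Dvd.intro _ h3.symm)

/-- If `g` divides the reductions of `P` and `Q` modulo `p` and has degree `m`, then `p ^ m` divides
the resultant of `P` and `Q`. -/
theorem pow_dvd_resultant {p : ℕ} [hp : Fact p.Prime] (P Q : ℤ[X]) (a b : ℕ)
    (ha : P.natDegree ≤ a) (hb : Q.natDegree ≤ b) (g : (ZMod p)[X]) (hg0 : g ≠ 0)
    (hP : g ∣ P.map (Int.castRingHom (ZMod p))) (hQ : g ∣ Q.map (Int.castRingHom (ZMod p)))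
    (hgab : g.natDegree ≤ a + b) : (p : ℤ) ^ g.natDegree ∣ resultant P Q a b := by
  classical
  -- make `g` monic
  wlog hmon : g.Monic generalizing g with H
  · have h1 : (g * C g.leadingCoeff⁻¹).Monic := monic_mul_leadingCoeff_inv hg0
    have h2 : (g * C g.leadingCoeff⁻¹).natDegree = g.natDegree := by
      rw [natDegree_mul_C (inv_ne_zero (leadingCoeff_ne_zero.2 hg0))]
    have hu : IsUnit (C g.leadingCoeff⁻¹ : (ZMod p)[X]) :=
      isUnit_C.2 (isUnit_iff_ne_zero.2 (inv_ne_zero (leadingCoeff_ne_zero.2 hg0)))
    have := H (g * C g.leadingCoeff⁻¹) h1.ne_zero (hu.mul_right_dvd.2 hP) (hu.mul_right_dvd.2 hQ)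
      (by rw [h2]; exact hgab) h1
    rwa [h2] at this
  unfold resultant
  let v : Fin g.natDegree → Fin (a + b) → ZMod p :=
    fun i j => (((X : (ZMod p)[X]) ^ (j : ℕ)) %ₘ g).coeff i
  refine pow_dvd_det (sylvester P Q a b) v ?_ ?_
  · rw [Fintype.linearIndependent_iff]
    intro c hc i
    have h1 := congrFun hc ⟨i, lt_of_lt_of_le i.2 hgab⟩
    rw [Finset.sum_apply] at h1
    have h2 : ∀ x : Fin g.natDegree, (c x • v x) ⟨i, lt_of_lt_of_le i.2 hgab⟩ =
        if x = i then c x else 0 := by
      intro x
      simp only [v, Pi.smul_apply, smul_eq_mul]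
      rw [(modByMonic_eq_self_iff hmon).2, coeff_X_pow]
      · by_cases hx : x = i
        · subst hx; simp
        · have : ¬ ((x : ℕ) = (i : ℕ)) := fun h => hx (Fin.ext h)
          simp [hx, this]
      · rw [degree_X_pow, degree_eq_natDegree hg0]
        exact_mod_cast i.2
    rw [Finset.sum_congr rfl fun x _ => h2 x, Finset.sum_ite_eq' Finset.univ i] at h1
    simpa using h1
  · -- the key property
    have key : ∀ F : (ZMod p)[X], F.natDegree < a + b ∨ a + b = 0 → g ∣ F → ∀ i : Fin g.natDegree,
        ∑ l : Fin (a + b), (((X : (ZMod p)[X]) ^ (l : ℕ)) %ₘ g).coeff i * F.coeff l = 0 := by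
      intro F hF hgF i
      rcases hF with hF | hF
      · have h1 : F %ₘ g = 0 := (modByMonic_eq_zero_iff_dvd hmon).2 hgF
        have h2 : F = ∑ l : Fin (a + b), C (F.coeff l) * X ^ (l : ℕ) := by
          conv_lhs => rw [F.as_sum_range' (a + b) hF]
          rw [Finset.sum_range]
          refine Finset.sum_congr rfl fun l _ => ?_
          rw [C_mul_X_pow_eq_monomial]
        have h3 : (F %ₘ g).coeff i =
            ∑ l : Fin (a + b), (((X : (ZMod p)[X]) ^ (l : ℕ)) %ₘ g).coeff i * F.coeff l := by
          conv_lhs => rw [h2]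
          rw [show ∀ G : (ZMod p)[X], G %ₘ g = modByMonicHom g G from fun G => rfl, map_sum,
            finsetSum_coeff]
          refine Finset.sum_congr rfl fun l _ => ?_
          rw [← smul_eq_C_mul, map_smul, coeff_smul, smul_eq_mul, mul_comm]
          rfl
        rw [← h3, h1, coeff_zero]
      · exact absurd (lt_of_lt_of_le i.2 hgab) (by omega)
    intro i
    funext j
    rw [Pi.zero_apply]
    have hmap : (sylvester P Q a b).map (Int.castRingHom (ZMod p)) =
        sylvester (P.map (Int.castRingHom (ZMod p))) (Q.map (Int.castRingHom (ZMod p))) a b := by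
      rw [sylvester_map_map]; rfl
    rw [hmap]
    induction j using Fin.addCases with
    | left j =>
      have hj := j.2
      have h4 : ∀ l : Fin (a + b), sylvester (P.map (Int.castRingHom (ZMod p)))
          (Q.map (Int.castRingHom (ZMod p))) a b l (Fin.castAdd b j) =
          (Q.map (Int.castRingHom (ZMod p)) * X ^ (j : ℕ)).coeff l := by
        intro l
        rw [coeff_mul_X_pow', sylvester, of_apply, Fin.addCases_left]
        by_cases h5 : (j : ℕ) ≤ l
        · by_cases h6 : (l : ℕ) ≤ j + b
          · simp [h5, h6]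
          · rw [if_neg, if_pos h5]
            · symm
              apply coeff_eq_zero_of_natDegree_lt
              have : (Q.map (Int.castRingHom (ZMod p))).natDegree ≤ b := natDegree_map_le.trans hb
              omega
            · simp [h6]
        · rw [if_neg, if_neg h5]
          simp [h5]
      have h7 := key (Q.map (Int.castRingHom (ZMod p)) * X ^ (j : ℕ)) (Or.inl (by
        have h8 : (Q.map (Int.castRingHom (ZMod p))).natDegree ≤ b := natDegree_map_le.trans hb
        have h9 := natDegree_mul_le (p := Q.map (Int.castRingHom (ZMod p))) (q := X ^ (j : ℕ))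
        rw [natDegree_X_pow] at h9
        omega)) (hQ.mul_right _) i
      rw [← h7]
      simp only [Matrix.vecMul, dotProduct, v, h4]
    | right j =>
      have hj := j.2
      have h4 : ∀ l : Fin (a + b), sylvester (P.map (Int.castRingHom (ZMod p)))
          (Q.map (Int.castRingHom (ZMod p))) a b l (Fin.natAdd a j) =
          (P.map (Int.castRingHom (ZMod p)) * X ^ (j : ℕ)).coeff l := by
        intro l
        rw [coeff_mul_X_pow', sylvester, of_apply, Fin.addCases_right]
        by_cases h5 : (j : ℕ) ≤ l
        · by_cases h6 : (l : ℕ) ≤ j + a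
          · simp [h5, h6]
          · rw [if_neg, if_pos h5]
            · symm
              apply coeff_eq_zero_of_natDegree_lt
              have : (P.map (Int.castRingHom (ZMod p))).natDegree ≤ a := natDegree_map_le.trans ha
              omega
            · simp [h6]
        · rw [if_neg, if_neg h5]
          simp [h5]
      have h7 := key (P.map (Int.castRingHom (ZMod p)) * X ^ (j : ℕ)) (Or.inl (by
        have h8 : (P.map (Int.castRingHom (ZMod p))).natDegree ≤ a := natDegree_map_le.trans ha
        have h9 := natDegree_mul_le (p := P.map (Int.castRingHom (ZMod p))) (q := X ^ (j : ℕ))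
        rw [natDegree_X_pow] at h9
        omega)) (hP.mul_right _) i
      rw [← h7]
      simp only [Matrix.vecMul, dotProduct, v, h4]

end Pool.Agent.Run7.h283.AP
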