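import Pool.Agent.Run7.h283.AP.Res

set_option autoImplicit false

/-!
Common roots modulo `p` of integer polynomials, and their resultants.
-/

namespace Pool.Agent.Run7.h283.AP

open Polynomial Finset

/-- The roots modulo `p` of an integer polynomial in an algebraic closure of `F_p`. -/
noncomputable def rts (p : ℕ) [Fact p.Prime] (P : ℤ[X]) : Finset (AlgebraicClosure (ZMod p)) :=
  open Classical in (P.map (Int.castRingHom (AlgebraicClosure (ZMod p)))).roots.toFinset

lemma map_map_cast (p : ℕ) [Fact p.Prime] (P : ℤ[X]) :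
    (P.map (Int.castRingHom (ZMod p))).map (algebraMap (ZMod p) (AlgebraicClosure (ZMod p))) =
      P.map (Int.castRingHom (AlgebraicClosure (ZMod p))) := by
  rw [Polynomial.map_map]
  congr 1

open Classical in
lemma pow_dvd_resultant_of_roots {p : ℕ} [hp : Fact p.Prime] (P Q : ℤ[X]) (a b : ℕ)
    (ha : P.natDegree ≤ a) (hb : Q.natDegree ≤ b)
    (hP0 : P.map (Int.castRingHom (ZMod p)) ≠ 0) :
    (p : ℤ) ^ (rts p P ∩ rts p Q).card ∣ resultant P Q a b := by
  classical
  set Pb := P.map (Int.castRingHom (ZMod p)) with hPb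
  set Qb := Q.map (Int.castRingHom (ZMod p)) with hQb
  set g := EuclideanDomain.gcd Pb Qb with hg
  have hg0 : g ≠ 0 := by
    intro h
    rw [hg, EuclideanDomain.gcd_eq_zero_iff] at h
    exact hP0 h.1
  have hgP : g ∣ Pb := EuclideanDomain.gcd_dvd_left _ _
  have hgQ : g ∣ Qb := EuclideanDomain.gcd_dvd_right _ _
  have hdeg : g.natDegree ≤ a + b := by
    have h1 := natDegree_le_of_dvd hgP hP0
    have h2 : Pb.natDegree ≤ P.natDegree := natDegree_map_le
    omega
  refine (pow_dvd_pow _ ?_).trans (pow_dvd_resultant P Q a b ha hb g hg0 hgP hgQ hdeg)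
  have hgm : g.map (algebraMap (ZMod p) (AlgebraicClosure (ZMod p))) ≠ 0 :=
    (Polynomial.map_ne_zero_iff (algebraMap (ZMod p) (AlgebraicClosure (ZMod p))).injective).2 hg0
  have hsub : rts p P ∩ rts p Q ⊆
      (g.map (algebraMap (ZMod p) (AlgebraicClosure (ZMod p)))).roots.toFinset := by
    intro s hs
    rw [mem_inter] at hs
    obtain ⟨h1, h2⟩ := hs
    rw [rts, Multiset.mem_toFinset] at h1 h2
    have h1' := (mem_roots'.1 h1).2
    have h2' := (mem_roots'.1 h2).2
    rw [Multiset.mem_toFinset, mem_roots hgm]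
    rw [IsRoot.def] at h1' h2' ⊢
    have h3 := EuclideanDomain.gcd_eq_gcd_ab Pb Qb
    rw [← hg] at h3
    rw [h3, Polynomial.map_add, Polynomial.map_mul, Polynomial.map_mul, hPb, hQb, map_map_cast,
      map_map_cast, eval_add, eval_mul, eval_mul, h1', h2']
    simp
  calc (rts p P ∩ rts p Q).card
      ≤ (g.map (algebraMap (ZMod p) (AlgebraicClosure (ZMod p)))).roots.toFinset.card :=
        card_le_card hsub
    _ ≤ Multiset.card (g.map (algebraMap (ZMod p) (AlgebraicClosure (ZMod p)))).roots :=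
        Multiset.toFinset_card_le _
    _ ≤ (g.map (algebraMap (ZMod p) (AlgebraicClosure (ZMod p)))).natDegree := card_roots' _
    _ = g.natDegree := natDegree_map _

/-- The number of common roots modulo `p`. -/
noncomputable def cr (p : ℕ) (P Q : ℤ[X]) : ℕ :=
  open Classical in if h : p.Prime then haveI := Fact.mk h; (rts p P ∩ rts p Q).card else 0

open Classical in
lemma cr_eq (p : ℕ) [hp : Fact p.Prime] (P Q : ℤ[X]) : cr p P Q = (rts p P ∩ rts p Q).card := by
  rw [cr, dif_pos hp.out]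

lemma sum_log_pow_dvd {PP : Finset ℕ} (hP : ∀ p ∈ PP, p.Prime) (c : ℕ → ℕ) {m : ℕ} (hm : m ≠ 0)
    (h : ∀ p ∈ PP, p ^ c p ∣ m) : ∑ p ∈ PP, Real.log p * c p ≤ Real.log m := by
  have h0 : ∀ p ∈ PP, ((p : ℝ) ^ c p) ≠ 0 := by
    intro p hp
    exact pow_ne_zero _ (by exact_mod_cast (hP p hp).ne_zero)
  have h1 : ∑ p ∈ PP, Real.log p * c p = Real.log (∏ p ∈ PP, (p : ℝ) ^ c p) := by
    rw [Real.log_prod h0]
    refine sum_congr rfl fun p _ => ?_
    rw [Real.log_pow, mul_comm]
  rw [h1]
  have h2 : ∏ p ∈ PP, p ^ c p ∣ m := by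
    refine Finset.prod_dvd_of_isRelPrime ?_ h
    intro p hp q hq hpq
    show IsRelPrime (p ^ c p) (q ^ c q)
    rw [← Nat.coprime_iff_isRelPrime]
    exact Nat.Coprime.pow _ _ ((Nat.coprime_primes (hP p hp) (hP q hq)).2 hpq)
  have h3 : ∏ p ∈ PP, p ^ c p ≤ m := Nat.le_of_dvd (Nat.pos_of_ne_zero hm) h2
  refine Real.log_le_log ?_ ?_
  · refine prod_pos fun p hp => pow_pos ?_ _
    exact_mod_cast (hP p hp).pos
  · have : (∏ p ∈ PP, (p : ℝ) ^ c p) = ((∏ p ∈ PP, p ^ c p : ℕ) : ℝ) := by push_cast; rfl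
    rw [this]
    exact Nat.cast_le.2 h3

/-- The minimal polynomials over `ℤ` of the algebraic numbers of degree `D`. -/
def Adm (D : ℕ) (P : ℤ[X]) : Prop := P.natDegree = D ∧ Irreducible P ∧ 0 < P.leadingCoeff

lemma Adm.prim {D : ℕ} (hD : 1 ≤ D) {P : ℤ[X]} (h : Adm D P) : P.IsPrimitive :=
  h.2.1.isPrimitive (by rw [h.1]; omega)

lemma Adm.irr {D : ℕ} (hD : 1 ≤ D) {P : ℤ[X]} (h : Adm D P) :
    Irreducible (P.map (Int.castRingHom ℚ)) :=
  (IsPrimitive.Int.irreducible_iff_irreducible_map_cast (h.prim hD)).1 h.2.1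

lemma natDegree_mapQ (P : ℤ[X]) : (P.map (Int.castRingHom ℚ)).natDegree = P.natDegree :=
  natDegree_map_eq_of_injective (RingHom.injective_int _) P

lemma Adm.res_ne {D : ℕ} (hD : 1 ≤ D) {P Q : ℤ[X]} (hP : Adm D P) (hQ : Adm D Q) (hne : P ≠ Q) :
    resultant P Q D D ≠ 0 := by
  have h1 : IsCoprime (P.map (Int.castRingHom ℚ)) (Q.map (Int.castRingHom ℚ)) := by
    rcases (hP.irr hD).isCoprime_or_dvd (Q.map (Int.castRingHom ℚ)) with h | h
    · exact h
    · exfalso
      have h2 : P ∣ Q := (IsPrimitive.Int.dvd_iff_map_cast_dvd_map_cast P Q (hP.prim hD)).2 h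

      have h3 : Associated P Q := (hP.2.1.associated_of_dvd hQ.2.1 h2)
      obtain ⟨u, hu⟩ := h3
      obtain ⟨c, hc, hcu⟩ := Polynomial.isUnit_iff.1 u.isUnit
      rcases Int.isUnit_iff.1 hc with rfl | rfl
      · apply hne
        rw [← hu, ← hcu]; simp
      · have h4 : Q = -P := by rw [← hu, ← hcu]; simp
        have h5 := hQ.2.2
        rw [h4, leadingCoeff_neg] at h5
        have := hP.2.2
        omega
  have h2 := resultant_ne_zero _ _ h1
  rw [natDegree_mapQ, natDegree_mapQ, resultant_map_map, hP.1, hQ.1] at h2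
  intro h
  apply h2
  rw [h, map_zero]

/-- The leading coefficient times the resultant of `P` and `P'`. -/
noncomputable def RR (D : ℕ) (P : ℤ[X]) : ℤ :=
  P.leadingCoeff * resultant P (derivative P) D (D - 1)

lemma Adm.RR_ne {D : ℕ} (hD : 1 ≤ D) {P : ℤ[X]} (hP : Adm D P) : RR D P ≠ 0 := by
  refine mul_ne_zero hP.2.2.ne' ?_
  have h1 : IsCoprime (P.map (Int.castRingHom ℚ)) (derivative (P.map (Int.castRingHom ℚ))) :=
    (hP.irr hD).separable
  have h2 := resultant_ne_zero _ _ h1
  have h3 : (derivative (P.map (Int.castRingHom ℚ))).natDegree = D - 1 := by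
    rw [natDegree_derivative, natDegree_mapQ, hP.1]
  rw [h3, natDegree_mapQ, hP.1, derivative_map, resultant_map_map] at h2
  intro h
  apply h2
  rw [h, map_zero]

lemma Adm.map_ne {D : ℕ} (hD : 1 ≤ D) {P : ℤ[X]} (hP : Adm D P) (p : ℕ) [hp : Fact p.Prime] :
    P.map (Int.castRingHom (ZMod p)) ≠ 0 := by
  intro h
  have h1 : C (p : ℤ) ∣ P := by
    rw [C_dvd_iff_dvd_coeff]
    intro i
    rw [← ZMod.intCast_zmod_eq_zero_iff_dvd]
    have := congrArg (fun F => F.coeff i) h
    simpa using this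
  have h2 := (hP.prim hD) (p : ℤ) h1
  rw [Int.isUnit_iff] at h2
  have := hp.out.one_lt
  omega

lemma Adm.card_rts {D : ℕ} (hD : 1 ≤ D) {P : ℤ[X]} (hP : Adm D P) (p : ℕ) [hp : Fact p.Prime]
    (h : ¬ (p : ℤ) ∣ RR D P) : (rts p P).card = D := by
  classical
  have h1 : ¬ (p : ℤ) ∣ P.leadingCoeff := fun h' => h (h'.mul_right _)
  have h2 : ¬ (p : ℤ) ∣ resultant P (derivative P) D (D - 1) := fun h' => h (h'.mul_left _)
  set K := AlgebraicClosure (ZMod p)
  have hcast : ∀ z : ℤ, (Int.castRingHom K z = 0) ↔ (p : ℤ) ∣ z := by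
    intro z
    have : CharP K p := charP_of_injective_algebraMap (algebraMap (ZMod p) K).injective p
    rw [eq_intCast, CharP.intCast_eq_zero_iff K p]
  have h3 : (P.map (Int.castRingHom K)).natDegree = D := by
    rw [natDegree_map_of_leadingCoeff_ne_zero, hP.1]
    rw [Ne, hcast]
    exact h1
  have hres : (Int.castRingHom K) (resultant P (derivative P) D (D - 1)) ≠ 0 := by
    rw [Ne, hcast]; exact h2
  have hsep : (P.map (Int.castRingHom K)).Separable := by
    have h4 := exists_mul_add_mul_eq_C_resultant (m := D) (n := D - 1)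
      (P.map (Int.castRingHom K)) (derivative (P.map (Int.castRingHom K))) h3.le
      (by
        have := natDegree_derivative_le (P.map (Int.castRingHom K))
        rw [h3] at this
        exact this) (Or.inl (by omega))
    obtain ⟨u, v, -, -, huv⟩ := h4
    rw [derivative_map, resultant_map_map] at huv
    refine ⟨C ((Int.castRingHom K) (resultant P (derivative P) D (D - 1)))⁻¹ * u,
      C ((Int.castRingHom K) (resultant P (derivative P) D (D - 1)))⁻¹ * v, ?_⟩
    calc C ((Int.castRingHom K) (resultant P (derivative P) D (D - 1)))⁻¹ * u *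
          P.map (Int.castRingHom K) +
        C ((Int.castRingHom K) (resultant P (derivative P) D (D - 1)))⁻¹ * v *
          derivative (P.map (Int.castRingHom K))
        = C ((Int.castRingHom K) (resultant P (derivative P) D (D - 1)))⁻¹ *
          (P.map (Int.castRingHom K) * u + (derivative P).map (Int.castRingHom K) * v) := by
          rw [derivative_map]; ring
      _ = 1 := by
          rw [huv, ← C_mul, inv_mul_cancel₀ hres, C_1]
  have h5 := IsAlgClosed.splits (P.map (Int.castRingHom K))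
  rw [rts, Multiset.toFinset_card_of_nodup (nodup_roots hsep), ← h3]
  exact (splits_iff_card_roots.1 h5)

end Pool.Agent.Run7.h283.AP
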