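import Pool.Agent.Run7.h283.AP.Rts
import Pool.Agent.Helper923.HMertens

set_option autoImplicit false

/-!
A larger sieve for irreducible polynomials by resultants: many primes modulo which all roots are in a
small set.
-/

namespace Pool.Agent.Run7.h283.AP

open Polynomial Finset

lemma abs_res_le {P Q : ℤ[X]} {a b : ℕ} {X : ℝ} (hP : ∀ i, |(P.coeff i : ℝ)| ≤ X)
    (hQ : ∀ i, |(Q.coeff i : ℝ)| ≤ X) :
    |((resultant P Q a b : ℤ) : ℝ)| ≤ ((a + b).factorial : ℝ) * X ^ (a + b) := by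
  have hX : 0 ≤ X := (abs_nonneg _).trans (hP 0)
  have h1 : ((resultant P Q a b : ℤ) : ℝ) =
      ((sylvester P Q a b).map (Int.castRingHom ℝ)).det := by
    rw [resultant]
    exact (Int.castRingHom ℝ).map_det _
  rw [h1]
  have h2 := Matrix.det_le (A := (sylvester P Q a b).map (Int.castRingHom ℝ))
    (abv := (AbsoluteValue.abs : AbsoluteValue ℝ ℝ)) (x := X) (by
      intro i j
      rw [AbsoluteValue.abs_apply, Matrix.map_apply]
      induction j using Fin.addCases with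
      | left j =>
        rw [sylvester, Matrix.of_apply, Fin.addCases_left]
        split_ifs
        · exact hQ _
        · simpa using hX
      | right j =>
        rw [sylvester, Matrix.of_apply, Fin.addCases_right]
        split_ifs
        · exact hP _
        · simpa using hX)
  rw [AbsoluteValue.abs_apply, Fintype.card_fin, nsmul_eq_mul] at h2
  exact h2

lemma abs_RR_le {P : ℤ[X]} {D : ℕ} (hD : 1 ≤ D) (hdeg : P.natDegree ≤ D) {X : ℝ}
    (hP : ∀ i, |(P.coeff i : ℝ)| ≤ X) :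
    |((RR D P : ℤ) : ℝ)| ≤ X * (((D + (D - 1)).factorial : ℝ) * (D * X) ^ (D + (D - 1))) := by
  have hX : 0 ≤ X := (abs_nonneg _).trans (hP 0)
  have hD1 : (1 : ℝ) ≤ D := by exact_mod_cast hD
  rw [RR, Int.cast_mul, abs_mul]
  refine mul_le_mul (hP _) (abs_res_le ?_ ?_) (abs_nonneg _) hX
  · intro i
    exact (hP i).trans (by nlinarith)
  · intro i
    rw [coeff_derivative]
    push_cast
    rw [abs_mul]
    rcases le_or_gt D i with h | h
    · have : P.coeff (i + 1) = 0 := coeff_eq_zero_of_natDegree_lt (by omega)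
      rw [this]
      simp only [Int.cast_zero, abs_zero, zero_mul]
      positivity
    · have h1 : |((i : ℝ) + 1)| ≤ D := by
        rw [abs_of_nonneg (by positivity)]
        exact_mod_cast h
      calc |(P.coeff (i + 1) : ℝ)| * |((i : ℝ) + 1)| ≤ X * D :=
            mul_le_mul (hP _) h1 (abs_nonneg _) hX
        _ = D * X := mul_comm _ _

open Classical in
/-- Cauchy-Schwarz for the roots modulo `p`. -/
lemma cs_p (p : ℕ) [Fact p.Prime] (S : Finset ℤ[X]) (D : ℕ) (h : ∀ P ∈ S, (rts p P).card = D) :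
    ((D : ℝ) * S.card) ^ 2 ≤ ((S.biUnion (rts p)).card : ℝ) * ∑ x ∈ S ×ˢ S, (cr p x.1 x.2 : ℝ) := by
  set T := S.biUnion (rts p) with hT
  let N : AlgebraicClosure (ZMod p) → ℝ := fun t => ∑ P ∈ S, if t ∈ rts p P then (1 : ℝ) else 0
  have h1 : ∑ t ∈ T, N t = D * S.card := by
    simp only [N]
    rw [sum_comm]
    have : ∀ P ∈ S, ∑ t ∈ T, (if t ∈ rts p P then (1 : ℝ) else 0) = D := by
      intro P hP
      rw [← sum_filter, sum_const, nsmul_eq_mul, mul_one]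
      have : T.filter (fun t => t ∈ rts p P) = rts p P := by
        ext t
        rw [mem_filter]
        exact ⟨fun h => h.2, fun h => ⟨mem_biUnion.2 ⟨P, hP, h⟩, h⟩⟩
      rw [this, h P hP]
    rw [sum_congr rfl this, sum_const, nsmul_eq_mul, mul_comm]
  have h2 : ∑ t ∈ T, N t ^ 2 = ∑ x ∈ S ×ˢ S, (cr p x.1 x.2 : ℝ) := by
    have h3 : ∀ t, N t ^ 2 = ∑ x ∈ S ×ˢ S, if t ∈ rts p x.1 ∩ rts p x.2 then (1 : ℝ) else 0 := by
      intro t
      simp only [N]
      rw [sq, sum_mul_sum, sum_product]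
      refine sum_congr rfl fun P _ => sum_congr rfl fun Q _ => ?_
      by_cases h4 : t ∈ rts p P <;> by_cases h5 : t ∈ rts p Q <;> simp [h4, h5]
    rw [sum_congr rfl fun t _ => h3 t, sum_comm]
    refine sum_congr rfl fun x hx => ?_
    rw [← sum_filter, sum_const, nsmul_eq_mul, mul_one, cr_eq]
    congr 2
    ext t
    rw [mem_filter]
    refine ⟨fun h => h.2, fun h => ⟨mem_biUnion.2 ⟨x.1, (mem_product.1 hx).1, (mem_inter.1 h).1⟩, h⟩⟩
  rw [← h1, ← h2]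
  exact sq_sum_le_card_mul_sum_sq

lemma cr_mono {S T : Finset ℤ[X]} (h : S ⊆ T) (p : ℕ) :
    ∑ x ∈ S ×ˢ S, (cr p x.1 x.2 : ℝ) ≤ ∑ x ∈ T ×ˢ T, (cr p x.1 x.2 : ℝ) :=
  sum_le_sum_of_subset_of_nonneg (product_subset_product h h) fun _ _ _ => Nat.cast_nonneg _

lemma cr_le {D : ℕ} {P Q : ℤ[X]} (hP : P.natDegree ≤ D) (p : ℕ) : cr p P Q ≤ D := by
  classical
  rw [cr]
  split_ifs with h
  · have := Fact.mk h
    refine (card_le_card inter_subset_left).trans ?_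
    refine (Multiset.toFinset_card_le _).trans ?_
    exact (card_roots' _).trans (natDegree_map_le.trans hP)
  · exact Nat.zero_le _

/-- The sum over pairs. -/
lemma pairs_le {PP : Finset ℕ} (hPP : ∀ p ∈ PP, p.Prime) {D : ℕ} (hD : 1 ≤ D) {S : Finset ℤ[X]}
    {X B : ℝ} (hX : 1 ≤ X) (hS : ∀ P ∈ S, Adm D P ∧ ∀ i, |(P.coeff i : ℝ)| ≤ X)
    (hB : Real.log (((D + D).factorial : ℝ) * X ^ (D + D)) ≤ B) :
    ∑ p ∈ PP, Real.log p * ∑ x ∈ S ×ˢ S, (cr p x.1 x.2 : ℝ) ≤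
      (S.card : ℝ) ^ 2 * B + S.card * (D * ∑ p ∈ PP, Real.log p) := by
  classical
  have hfac : (1 : ℝ) ≤ ((D + D).factorial : ℝ) := by exact_mod_cast Nat.factorial_pos _
  have hB0 : 0 ≤ B := by
    refine le_trans (Real.log_nonneg ?_) hB
    have := one_le_pow₀ hX (n := D + D)
    nlinarith
  simp_rw [mul_sum]
  rw [sum_comm]
  have h2 : ∀ x ∈ S ×ˢ S, (∑ p ∈ PP, Real.log p * (cr p x.1 x.2 : ℝ)) ≤
      B + if x.1 = x.2 then D * ∑ p ∈ PP, Real.log p else 0 := by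
    intro x hx
    rw [mem_product] at hx
    split_ifs with h
    · have : ∑ p ∈ PP, Real.log p * (cr p x.1 x.2 : ℝ) ≤ D * ∑ p ∈ PP, Real.log p := by
        rw [mul_sum]
        refine sum_le_sum fun p _ => ?_
        rw [mul_comm]
        refine mul_le_mul_of_nonneg_right ?_ (Real.log_natCast_nonneg p)
        exact_mod_cast cr_le (hS _ hx.1).1.1.le p
      linarith
    · rw [add_zero]
      have hne := Adm.res_ne hD (hS _ hx.1).1 (hS _ hx.2).1 h
      have h3 := sum_log_pow_dvd hPP (fun p => cr p x.1 x.2)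
        (m := (resultant x.1 x.2 D D).natAbs) (Int.natAbs_ne_zero.2 hne) (by
          intro p hp
          have := Fact.mk (hPP p hp)
          have h4 := pow_dvd_resultant_of_roots (p := p) x.1 x.2 D D (hS _ hx.1).1.1.le
            (hS _ hx.2).1.1.le ((hS _ hx.1).1.map_ne hD p)
          rw [cr_eq]
          have h5 := Int.natAbs_dvd_natAbs.2 h4
          rwa [Int.natAbs_pow, Int.natAbs_natCast] at h5)
      refine h3.trans (le_trans (Real.log_le_log ?_ ?_) hB)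
      · exact_mod_cast Nat.pos_of_ne_zero (Int.natAbs_ne_zero.2 hne)
      · rw [Nat.cast_natAbs, Int.cast_abs]
        exact abs_res_le (hS _ hx.1).2 (hS _ hx.2).2
  refine (sum_le_sum h2).trans ?_
  rw [sum_add_distrib, sum_const, card_product, nsmul_eq_mul]
  have h4 : ∑ x ∈ S ×ˢ S, (if x.1 = x.2 then (D : ℝ) * ∑ p ∈ PP, Real.log p else 0) =
      S.card * (D * ∑ p ∈ PP, Real.log p) := by
    rw [sum_product]
    simp only [sum_ite_eq, sum_ite_mem, inter_self, sum_const, nsmul_eq_mul]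
  rw [h4, Nat.cast_mul, sq]
  simp only [mul_sum]
  exact le_rfl

open Classical in
/-- For large primes `p` all polynomials of `A p` have their roots modulo `p` in a set with at most
`d p / n` elements. -/
def ClsP (A : ℕ → ℤ[X] → Prop) (n d P₁ : ℕ) : Prop :=
  ∀ (p : ℕ) [Fact p.Prime], P₁ < p → ∀ S : Finset ℤ[X], (∀ P ∈ S, A p P) →
    (S.biUnion (rts p)).card * n ≤ d * p

open Classical in
/-- The larger sieve with resultants. -/
lemma weightedP {A : ℕ → ℤ[X] → Prop} {n d P₁ : ℕ} (hA : ClsP A n d P₁)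
    {PP : Finset ℕ} (hPP : ∀ p ∈ PP, p.Prime ∧ P₁ < p) {D : ℕ} (hD : 1 ≤ D) {S : Finset ℤ[X]}
    {X B V W : ℝ} (hX : 1 ≤ X) (hS : ∀ P ∈ S, Adm D P ∧ ∀ i, |(P.coeff i : ℝ)| ≤ X)
    (hB : Real.log (((D + D).factorial : ℝ) * X ^ (D + D)) ≤ B) (hV : 0 ≤ V)
    (hW : ∑ p ∈ PP, Real.log p / p ≤ W)
    (hSV : ∀ P ∈ S, V ≤ ∑ p ∈ PP with A p P ∧ ¬ (p : ℤ) ∣ RR D P, Real.log p / p) :
    (S.card : ℝ) * (n * D ^ 2 * V ^ 2 - W * d * B) ≤ W * d * (D * ∑ p ∈ PP, Real.log p) := by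
  rcases Nat.eq_zero_or_pos S.card with h0 | hpos
  · rw [h0]
    have : 0 ≤ ∑ p ∈ PP, Real.log p := sum_nonneg fun p hp => Real.log_natCast_nonneg p
    have h2 : 0 ≤ ∑ p ∈ PP, Real.log p / p :=
      sum_nonneg fun p hp => div_nonneg (Real.log_natCast_nonneg p) (Nat.cast_nonneg p)
    have h3 : 0 ≤ W := h2.trans hW
    simp only [Nat.cast_zero, zero_mul]
    positivity
  have hw0 : ∀ p ∈ PP, 0 ≤ Real.log p / p := fun p _ =>
    div_nonneg (Real.log_natCast_nonneg p) (Nat.cast_nonneg p)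
  set Sp : ℕ → Finset ℤ[X] := fun p => S.filter fun P => A p P ∧ ¬ (p : ℤ) ∣ RR D P with hSp
  have h1 : (S.card : ℝ) * V ≤ ∑ p ∈ PP, Real.log p / p * (Sp p).card := by
    calc (S.card : ℝ) * V = ∑ P ∈ S, V := by rw [sum_const, nsmul_eq_mul]
      _ ≤ ∑ P ∈ S, ∑ p ∈ PP with A p P ∧ ¬ (p : ℤ) ∣ RR D P, Real.log p / p := sum_le_sum hSV
      _ = ∑ P ∈ S, ∑ p ∈ PP, if A p P ∧ ¬ (p : ℤ) ∣ RR D P then Real.log p / p else 0 := by
          refine sum_congr rfl fun q _ => ?_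
          rw [sum_filter]
      _ = ∑ p ∈ PP, ∑ P ∈ S, if A p P ∧ ¬ (p : ℤ) ∣ RR D P then Real.log p / p else 0 := sum_comm
      _ = ∑ p ∈ PP, Real.log p / p * (Sp p).card := by
          refine sum_congr rfl fun p _ => ?_
          rw [← sum_filter, sum_const, nsmul_eq_mul]
          ring
  have h2 : (∑ p ∈ PP, Real.log p / p * (Sp p).card) ^ 2 ≤
      W * ∑ p ∈ PP, Real.log p / p * ((Sp p).card : ℝ) ^ 2 := by
    have h := sum_mul_sq_le_sq_mul_sq PP (fun p => Real.sqrt (Real.log p / p))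
      (fun p => Real.sqrt (Real.log p / p) * (Sp p).card)
    have e1 : ∑ p ∈ PP, Real.sqrt (Real.log p / p) * (Real.sqrt (Real.log p / p) * (Sp p).card) =
        ∑ p ∈ PP, Real.log p / p * (Sp p).card := by
      refine sum_congr rfl fun p hp => ?_
      rw [← mul_assoc, Real.mul_self_sqrt (hw0 p hp)]
    have e2 : ∑ p ∈ PP, Real.sqrt (Real.log p / p) ^ 2 = ∑ p ∈ PP, Real.log p / p := by
      refine sum_congr rfl fun p hp => ?_
      rw [Real.sq_sqrt (hw0 p hp)]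
    have e3 : ∑ p ∈ PP, (Real.sqrt (Real.log p / p) * (Sp p).card) ^ 2 =
        ∑ p ∈ PP, Real.log p / p * ((Sp p).card : ℝ) ^ 2 := by
      refine sum_congr rfl fun p hp => ?_
      rw [mul_pow, Real.sq_sqrt (hw0 p hp)]
    rw [e1, e2, e3] at h
    refine h.trans (mul_le_mul_of_nonneg_right hW ?_)
    exact sum_nonneg fun p hp => mul_nonneg (hw0 p hp) (sq_nonneg _)
  have h3 : ∀ p ∈ PP, n * D ^ 2 * (Real.log p / p * ((Sp p).card : ℝ) ^ 2) ≤
      d * (Real.log p * ∑ x ∈ S ×ˢ S, (cr p x.1 x.2 : ℝ)) := by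
    intro p hp
    have := Fact.mk (hPP p hp).1
    have hp0 : (0 : ℝ) < p := by exact_mod_cast (hPP p hp).1.pos
    have hlog : 0 ≤ Real.log (p : ℝ) := Real.log_natCast_nonneg p
    have hcs := cs_p p (Sp p) D (fun P hP => by
      rw [mem_filter] at hP
      exact (hS P hP.1).1.card_rts hD p hP.2.2)
    have hcl : (((Sp p).biUnion (rts p)).card : ℝ) * n ≤ d * p := by
      have := hA p (hPP p hp).2 (Sp p) (fun P hP => (mem_filter.1 hP).2.1)
      exact_mod_cast this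
    have hmono : ∑ x ∈ (Sp p) ×ˢ (Sp p), (cr p x.1 x.2 : ℝ) ≤ ∑ x ∈ S ×ˢ S, (cr p x.1 x.2 : ℝ) :=
      cr_mono (filter_subset _ _) p
    have hnn : (0 : ℝ) ≤ ∑ x ∈ (Sp p) ×ˢ (Sp p), (cr p x.1 x.2 : ℝ) :=
      sum_nonneg fun _ _ => Nat.cast_nonneg _
    have h4 : (n : ℝ) * D ^ 2 * ((Sp p).card : ℝ) ^ 2 ≤
        d * p * ∑ x ∈ S ×ˢ S, (cr p x.1 x.2 : ℝ) := by
      calc (n : ℝ) * D ^ 2 * ((Sp p).card : ℝ) ^ 2 = n * ((D : ℝ) * (Sp p).card) ^ 2 := by ring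
        _ ≤ n * ((((Sp p).biUnion (rts p)).card : ℝ) *
              ∑ x ∈ (Sp p) ×ˢ (Sp p), (cr p x.1 x.2 : ℝ)) :=
            mul_le_mul_of_nonneg_left hcs (Nat.cast_nonneg n)
        _ = ((((Sp p).biUnion (rts p)).card : ℝ) * n) *
              ∑ x ∈ (Sp p) ×ˢ (Sp p), (cr p x.1 x.2 : ℝ) := by ring
        _ ≤ (d * p) * ∑ x ∈ (Sp p) ×ˢ (Sp p), (cr p x.1 x.2 : ℝ) :=
            mul_le_mul_of_nonneg_right hcl hnn
        _ ≤ (d * p) * ∑ x ∈ S ×ˢ S, (cr p x.1 x.2 : ℝ) :=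
            mul_le_mul_of_nonneg_left hmono (by positivity)
    calc n * D ^ 2 * (Real.log p / p * ((Sp p).card : ℝ) ^ 2)
        = Real.log p / p * (n * D ^ 2 * ((Sp p).card : ℝ) ^ 2) := by ring
      _ ≤ Real.log p / p * (d * p * ∑ x ∈ S ×ˢ S, (cr p x.1 x.2 : ℝ)) :=
          mul_le_mul_of_nonneg_left h4 (hw0 p hp)
      _ = d * (Real.log p * ∑ x ∈ S ×ˢ S, (cr p x.1 x.2 : ℝ)) := by field_simp
  have h4 := pairs_le (fun p hp => (hPP p hp).1) hD hX hS hB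
  have hW0 : 0 ≤ W := (sum_nonneg hw0).trans hW
  have h5 : (n : ℝ) * D ^ 2 * ∑ p ∈ PP, Real.log p / p * ((Sp p).card : ℝ) ^ 2 ≤
      d * ((S.card : ℝ) ^ 2 * B + S.card * (D * ∑ p ∈ PP, Real.log p)) := by
    calc (n : ℝ) * D ^ 2 * ∑ p ∈ PP, Real.log p / p * ((Sp p).card : ℝ) ^ 2
        = ∑ p ∈ PP, n * D ^ 2 * (Real.log p / p * ((Sp p).card : ℝ) ^ 2) := by rw [mul_sum]
      _ ≤ ∑ p ∈ PP, d * (Real.log p * ∑ x ∈ S ×ˢ S, (cr p x.1 x.2 : ℝ)) := sum_le_sum h3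
      _ = d * ∑ p ∈ PP, Real.log p * ∑ x ∈ S ×ˢ S, (cr p x.1 x.2 : ℝ) := by rw [mul_sum]
      _ ≤ _ := mul_le_mul_of_nonneg_left h4 (Nat.cast_nonneg d)
  have hs0 : (0 : ℝ) < S.card := by exact_mod_cast hpos
  have h6 : (n : ℝ) * D ^ 2 * ((S.card : ℝ) * V) ^ 2 ≤
      W * (d * ((S.card : ℝ) ^ 2 * B + S.card * (D * ∑ p ∈ PP, Real.log p))) := by
    have h7 : ((S.card : ℝ) * V) ^ 2 ≤ (∑ p ∈ PP, Real.log p / p * (Sp p).card) ^ 2 := by
      have : 0 ≤ (S.card : ℝ) * V := by positivity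
      exact pow_le_pow_left₀ this h1 2
    calc (n : ℝ) * D ^ 2 * ((S.card : ℝ) * V) ^ 2
        ≤ n * D ^ 2 * (W * ∑ p ∈ PP, Real.log p / p * ((Sp p).card : ℝ) ^ 2) :=
          mul_le_mul_of_nonneg_left (h7.trans h2) (by positivity)
      _ = W * (n * D ^ 2 * ∑ p ∈ PP, Real.log p / p * ((Sp p).card : ℝ) ^ 2) := by ring
      _ ≤ _ := mul_le_mul_of_nonneg_left h5 hW0
  have h8 : (S.card : ℝ) * ((S.card : ℝ) * (n * D ^ 2 * V ^ 2 - W * d * B)) ≤
      S.card * (W * d * (D * ∑ p ∈ PP, Real.log p)) := by nlinarith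
  exact le_of_mul_le_mul_left h8 hs0

end Pool.Agent.Run7.h283.AP
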